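import Pool.Agent.Helper43.LO.Goals

/-!
# Project LO (MP_c13f7d_co), packet QF: the quadratic form of the changes at the endpoints
-/

set_option autoImplicit false

namespace Pool.Agent.Helper82.LO

open Finset Pool.Agent.Helper33.Schur Pool.Agent.Helper43.LO

section defs
variable (m : ℕ) (χ : ℕ → Fin 3)

def r (i : Fin 6) (x : ℕ) : ℤ := if isR m i x (χ x) then 1 else 0
def l (i : Fin 6) (x : ℕ) : ℤ := if isL m i x (χ x) then 1 else 0
def s (i : Fin 6) (x : ℕ) : ℤ := r m χ i x - l m χ i x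

end defs

def dl (i : Fin 6) (c : Fin 3) : ℤ := (if lc i = c then 1 else 0) - (if rc i = c then 1 else 0)

/-- coefficient of the sums -/
def Kb (i j : Fin 6) : ℤ :=
  if e i + e j < 67 then ∑ c : Fin 3, dl i c * dl j c * (if blk (e i + e j) = c then 1 else 0)
  else 0

/-- coefficient of the differences -/
def Kd (i j : Fin 6) : ℤ :=
  if e i ≤ e j then ∑ c : Fin 3, dl i c * dl j c * (if blk (e j - e i) = c then 1 else 0)
  else 0

lemma e_inj : ∀ i j : Fin 6, e i = e j → i = j := by decide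

lemma Kd_self : ∀ i : Fin 6, Kd i i = 1 := by decide

lemma kap_eq : ∀ i j : Fin 6, kap i j = Kb i j + (if e i < e j then Kd i j else 0)
    + (if e j < e i then Kd j i else 0) + (if i = j then 1 else 0) := by
  decide

lemma blk_sum : ∀ i j : Fin 6, e i + e j < 67 → blk (e i + e j - 1) = blk (e i + e j) := by
  decide

lemma blk_dif : ∀ i j : Fin 6, e i < e j → blk (e j - e i - 1) = blk (e j - e i) := by
  decide

lemma no_sum : ∀ i j k : Fin 6, e i + e j ≠ e k := by decide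

lemma sum_ne : ∀ i j : Fin 6, e i + e j ≠ 67 := by decide

lemma blk_r : ∀ i : Fin 6, blk (e i) = rc i := by decide

lemma blk_l : ∀ i : Fin 6, blk (e i - 1) = lc i := by decide

lemma lc_rc : ∀ i : Fin 6, lc i ≠ rc i := by decide

lemma e_pos : ∀ i : Fin 6, 1 ≤ e i := by decide

lemma cmp {A B m : ℕ} (h : 4 * (A * m) < 4 * (B * m) + 4 * m) : A ≤ B := by
  by_contra hcon
  have h1 : B + 1 ≤ A := by omega
  have h2 : (B + 1) * m ≤ A * m := Nat.mul_le_mul_right m h1
  have h3 : (B + 1) * m = B * m + m := by ring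
  omega

lemma col_of {m z k : ℕ} (h1 : k * m < z) (h2 : z ≤ (k + 1) * m) : col m z = blk k := by
  have h3 : (k + 1) * m = k * m + m := by ring
  unfold col
  have hm : 0 < m := by omega
  have h4 : (z - 1) / m = k := by
    rw [Nat.div_eq_iff hm]
    have h5 : m * k = k * m := by ring
    constructor
    · omega
    · have h6 : k * m + m - 1 = m * k + m - 1 := by rw [h5]
      omega
  rw [h4]

section main
variable {m : ℕ} {χ : ℕ → Fin 3}

lemma s_ne {i : Fin 6} {x : ℕ} (h : s m χ i x ≠ 0) :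
    4 * (e i * m) < 4 * x + m ∧ 4 * x ≤ 4 * (e i * m) + m := by
  unfold s r l at h
  by_cases hR : isR m i x (χ x)
  · unfold isR at hR
    have h3 : (4 * e i + 1) * m = 4 * (e i * m) + m := by ring
    constructor <;> omega
  · by_cases hL : isL m i x (χ x)
    · unfold isL at hL
      have h3 : (4 * e i) * m = 4 * (e i * m) := by ring
      constructor <;> omega
    · exact absurd (by simp [hR, hL]) h

lemma s_uniq {i j : Fin 6} {x : ℕ} (hi : s m χ i x ≠ 0) (hj : s m χ j x ≠ 0) : i = j := by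
  have h1 := s_ne hi
  have h2 := s_ne hj
  apply e_inj
  apply le_antisymm
  · apply cmp (m := m); omega
  · apply cmp (m := m); omega

lemma s_dich (x : ℕ) : (∀ i, s m χ i x = 0) ∨
    ∃ i, s m χ i x ≠ 0 ∧ ∀ j, j ≠ i → s m χ j x = 0 := by
  by_cases h : ∀ i, s m χ i x = 0
  · exact Or.inl h
  · right
    push Not at h
    obtain ⟨i, hi⟩ := h
    refine ⟨i, hi, fun j hj => ?_⟩
    by_contra hj2
    exact hj (s_uniq hj2 hi)

/-- the facts about one place -/
lemma rl (hm : 1 ≤ m) {i : Fin 6} {x : ℕ} (hR : isR m i x (χ x)) :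
    ¬ isL m i x (χ x) ∧ χ x = lc i ∧ col m x = rc i := by
  unfold isR at hR
  have h3 : (4 * e i + 1) * m = 4 * (e i * m) + m := by ring
  have h4 : (e i + 1) * m = e i * m + m := by ring
  refine ⟨?_, hR.2.2, ?_⟩
  · unfold isL
    intro hL
    omega
  · rw [← blk_r]
    apply col_of <;> omega

lemma ll (hm : 1 ≤ m) {i : Fin 6} {x : ℕ} (hL : isL m i x (χ x)) :
    ¬ isR m i x (χ x) ∧ χ x = rc i ∧ col m x = lc i := by
  unfold isL at hL
  have h3 : (4 * e i) * m = 4 * (e i * m) := by ring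
  have h4 : (e i - 1 + 1) * m = e i * m := by
    have := e_pos i
    rw [Nat.sub_add_cancel this]
  have h5 : (e i - 1 + 1) * m = (e i - 1) * m + m := by ring
  refine ⟨?_, hL.2.2, ?_⟩
  · unfold isR
    intro hR
    omega
  · rw [← blk_l]
    apply col_of <;> omega

lemma s_ne_dif (hm : 1 ≤ m) {i : Fin 6} {x : ℕ} (h : s m χ i x ≠ 0) : χ x ≠ col m x := by
  by_cases hR : isR m i x (χ x)
  · obtain ⟨-, h1, h2⟩ := rl hm hR
    rw [h2, h1]; exact lc_rc i
  · by_cases hL : isL m i x (χ x)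
    · obtain ⟨-, h1, h2⟩ := ll hm hL
      rw [h2, h1]; exact (lc_rc i).symm
    · exact absurd (by simp [s, r, l, hR, hL]) h

variable (hm : 1 ≤ m)
  (hall : ∀ x ∈ dif (67 * m) χ (col m), ∃ i : Fin 6, isR m i x (χ x) ∨ isL m i x (χ x))

include hm in
lemma h_of {i : Fin 6} {x : ℕ} (h : s m χ i x ≠ 0) (c : Fin 3) :
    Pool.Agent.Helper43.LO.h χ (col m) c x = s m χ i x * dl i c := by
  by_cases hR : isR m i x (χ x)
  · obtain ⟨h0, h1, h2⟩ := rl hm hR
    have hs : s m χ i x = 1 := by simp [s, r, l, hR, h0]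
    rw [hs, Pool.Agent.Helper43.LO.h, dl, h1, h2]
    ring
  · by_cases hL : isL m i x (χ x)
    · obtain ⟨h0, h1, h2⟩ := ll hm hL
      have hs : s m χ i x = -1 := by simp [s, r, l, hR, hL]
      rw [hs, Pool.Agent.Helper43.LO.h, dl, h1, h2]
      ring
    · exact absurd (by simp [s, r, l, hR, hL]) h

include hm hall in
lemma h_zero {x : ℕ} (hx : x ∈ Icc 1 (67 * m)) (h : ∀ i, s m χ i x = 0) (c : Fin 3) :
    Pool.Agent.Helper43.LO.h χ (col m) c x = 0 := by
  by_cases hd : χ x = col m x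
  · simp [Pool.Agent.Helper43.LO.h, hd]
  · obtain ⟨i, hi⟩ := hall x (by rw [dif, mem_filter]; exact ⟨hx, hd⟩)
    exfalso
    have h1 := h i
    rcases hi with hR | hL
    · obtain ⟨h0, -, -⟩ := rl hm hR
      simp [s, r, l, hR, h0] at h1
    · obtain ⟨h0, -, -⟩ := ll hm hL
      simp [s, r, l, hL, h0] at h1

include hm hall in
lemma ptA {x y : ℕ} (hx : x ∈ Icc 1 (67 * m)) (hy : y ∈ Icc 1 (67 * m)) (hxy : x + y ≤ 67 * m) :
    ∑ c : Fin 3, Pool.Agent.Helper43.LO.h χ (col m) c x * Pool.Agent.Helper43.LO.h χ (col m) c y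
      * ind (col m) c (x + y) = ∑ i : Fin 6, ∑ j : Fin 6, Kb i j * (s m χ i x * s m χ j y) := by
  rcases s_dich (m := m) (χ := χ) x with h1 | ⟨i, hi, hi2⟩
  · rw [Finset.sum_eq_zero, Finset.sum_eq_zero]
    · intro i _
      exact Finset.sum_eq_zero fun j _ => by rw [h1 i]; ring
    · intro c _
      rw [h_zero hm hall hx h1]; ring
  rcases s_dich (m := m) (χ := χ) y with h2 | ⟨j, hj, hj2⟩
  · rw [Finset.sum_eq_zero, Finset.sum_eq_zero]
    · intro i _
      exact Finset.sum_eq_zero fun j _ => by rw [h2 j]; ring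
    · intro c _
      rw [h_zero hm hall hy h2]; ring
  rw [Finset.sum_eq_single i (fun k _ hk => Finset.sum_eq_zero fun j _ => by
      rw [hi2 k hk]; ring) (fun h => absurd (mem_univ _) h),
    Finset.sum_eq_single j (fun k _ hk => by rw [hj2 k hk]; ring) (fun h => absurd (mem_univ _) h)]
  have b1 := s_ne hi
  have b2 := s_ne hj
  have b3 : (e i + e j) * m = e i * m + e j * m := by ring
  have hlt : e i + e j < 67 := by
    have h3 : e i + e j ≤ 67 := by
      apply cmp (m := m)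
      omega
    have := sum_ne i j
    omega
  have hp := e_pos i
  have b4 : (e i + e j - 1 + 1) * m = (e i + e j) * m := by
    rw [Nat.sub_add_cancel (by omega)]
  have b5 : (e i + e j - 1 + 1) * m = (e i + e j - 1) * m + m := by ring
  have b6 : (e i + e j + 1) * m = (e i + e j) * m + m := by ring
  have hcol : col m (x + y) = blk (e i + e j) := by
    by_cases hle : x + y ≤ (e i + e j) * m
    · rw [← blk_sum i j hlt]
      apply col_of <;> omega
    · apply col_of <;> omega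
  rw [Kb, if_pos hlt, Finset.sum_mul]
  refine Finset.sum_congr rfl fun c _ => ?_
  rw [h_of hm hi, h_of hm hj, ind, hcol]
  ring

include hm hall in
lemma ptB {x z : ℕ} (hx : x ∈ Icc 1 (67 * m)) (hz : z ∈ Icc 1 (67 * m)) (hxz : x < z) :
    ∑ c : Fin 3, Pool.Agent.Helper43.LO.h χ (col m) c x * ind (col m) c (z - x)
      * Pool.Agent.Helper43.LO.h χ (col m) c z
      = ∑ i : Fin 6, ∑ j : Fin 6, Kd i j * (s m χ i x * s m χ j z) := by
  rcases s_dich (m := m) (χ := χ) x with h1 | ⟨i, hi, hi2⟩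
  · rw [Finset.sum_eq_zero, Finset.sum_eq_zero]
    · intro i _
      exact Finset.sum_eq_zero fun j _ => by rw [h1 i]; ring
    · intro c _
      rw [h_zero hm hall hx h1]; ring
  rcases s_dich (m := m) (χ := χ) z with h2 | ⟨j, hj, hj2⟩
  · rw [Finset.sum_eq_zero, Finset.sum_eq_zero]
    · intro i _
      exact Finset.sum_eq_zero fun j _ => by rw [h2 j]; ring
    · intro c _
      rw [h_zero hm hall hz h2]; ring
  rw [Finset.sum_eq_single i (fun k _ hk => Finset.sum_eq_zero fun j _ => by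
      rw [hi2 k hk]; ring) (fun h => absurd (mem_univ _) h),
    Finset.sum_eq_single j (fun k _ hk => by rw [hj2 k hk]; ring) (fun h => absurd (mem_univ _) h)]
  have b1 := s_ne hi
  have b2 := s_ne hj
  have hle : e i ≤ e j := by
    apply cmp (m := m); omega
  have b3 : e i * m + (e j - e i) * m = e j * m := by
    rw [← Nat.add_mul, Nat.add_sub_cancel' hle]
  have hcol : col m (z - x) = blk (e j - e i) := by
    rcases Nat.eq_or_lt_of_le hle with heq | hlt
    · have h0 : e j - e i = 0 := by omega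
      rw [h0] at b3 ⊢
      apply col_of
      · omega
      · omega
    · have b4 : (e j - e i - 1 + 1) * m = (e j - e i) * m := by
        rw [Nat.sub_add_cancel (by omega)]
      have b5 : (e j - e i - 1 + 1) * m = (e j - e i - 1) * m + m := by ring
      have b6 : (e j - e i + 1) * m = (e j - e i) * m + m := by ring
      by_cases hle2 : z - x ≤ (e j - e i) * m
      · rw [← blk_dif i j hlt]
        apply col_of <;> omega
      · apply col_of <;> omega
  rw [Kd, if_pos hle, Finset.sum_mul]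
  refine Finset.sum_congr rfl fun c _ => ?_
  rw [h_of hm hi, h_of hm hj, ind, hcol]
  ring

include hm hall in
lemma ptD {x y : ℕ} (hx : x ∈ Icc 1 (67 * m)) (hy : y ∈ Icc 1 (67 * m)) (hxy : x + y ≤ 67 * m)
    (c : Fin 3) :
    Pool.Agent.Helper43.LO.h χ (col m) c x * Pool.Agent.Helper43.LO.h χ (col m) c y
      * Pool.Agent.Helper43.LO.h χ (col m) c (x + y) = 0 := by
  have hz : x + y ∈ Icc 1 (67 * m) := by
    rw [mem_Icc] at hx hy ⊢
    omega
  rcases s_dich (m := m) (χ := χ) x with h1 | ⟨i, hi, hi2⟩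
  · rw [h_zero hm hall hx h1]; ring
  rcases s_dich (m := m) (χ := χ) y with h2 | ⟨j, hj, hj2⟩
  · rw [h_zero hm hall hy h2]; ring
  rcases s_dich (m := m) (χ := χ) (x + y) with h3 | ⟨k, hk, hk2⟩
  · rw [h_zero hm hall hz h3]; ring
  exfalso
  have b1 := s_ne hi
  have b2 := s_ne hj
  have b3 := s_ne hk
  have b4 : (e i + e j) * m = e i * m + e j * m := by ring
  apply no_sum i j k
  apply le_antisymm
  · apply cmp (m := m); omega
  · apply cmp (m := m); omega

end main

/-- pairs `x < z` -/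
def pr2 (N : ℕ) : Finset (ℕ × ℕ) := (Icc 1 N ×ˢ Icc 1 N).filter (fun q => q.1 < q.2)

lemma reidx (N : ℕ) (g : ℕ → ℕ → ℕ → ℤ) :
    ∑ q ∈ prs N, g q.1 q.2 (q.1 + q.2) = ∑ q ∈ pr2 N, g q.1 (q.2 - q.1) q.2 := by
  refine Finset.sum_nbij' (fun q => (q.1, q.1 + q.2)) (fun q => (q.1, q.2 - q.1)) ?_ ?_ ?_ ?_ ?_
  · rintro ⟨x, y⟩ hq
    simp only [prs, pr2, mem_filter, mem_product, mem_Icc] at hq ⊢
    omega
  · rintro ⟨x, y⟩ hq
    simp only [prs, pr2, mem_filter, mem_product, mem_Icc] at hq ⊢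
    omega
  · rintro ⟨x, y⟩ hq
    simp
  · rintro ⟨x, y⟩ hq
    simp only [pr2, mem_filter, mem_product, mem_Icc] at hq
    simp only [Prod.mk.injEq, true_and]
    omega
  · rintro ⟨x, y⟩ hq
    simp

lemma swp (N : ℕ) (g : ℕ → ℕ → ℤ) :
    ∑ q ∈ prs N, g q.1 q.2 = ∑ q ∈ prs N, g q.2 q.1 := by
  refine Finset.sum_nbij' (fun q => (q.2, q.1)) (fun q => (q.2, q.1)) ?_ ?_ ?_ ?_ ?_
  · rintro ⟨x, y⟩ hq
    simp only [prs, mem_filter, mem_product, mem_Icc] at hq ⊢
    omega
  · rintro ⟨x, y⟩ hq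
    simp only [prs, mem_filter, mem_product, mem_Icc] at hq ⊢
    omega
  · rintro ⟨x, y⟩ hq
    simp
  · rintro ⟨x, y⟩ hq
    simp
  · rintro ⟨x, y⟩ hq
    simp

lemma sq_split (N : ℕ) (g : ℕ → ℤ) :
    2 * ∑ q ∈ pr2 N, g q.1 * g q.2 = (∑ x ∈ Icc 1 N, g x) ^ 2 - ∑ x ∈ Icc 1 N, g x ^ 2 := by
  have h1 : (∑ x ∈ Icc 1 N, g x) ^ 2 = ∑ q ∈ Icc 1 N ×ˢ Icc 1 N, g q.1 * g q.2 := by
    rw [sq, Finset.sum_mul_sum, ← Finset.sum_product']
  have h2 : ∑ q ∈ Icc 1 N ×ˢ Icc 1 N, g q.1 * g q.2 =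
      ∑ q ∈ (Icc 1 N ×ˢ Icc 1 N).filter (fun q => q.1 < q.2), g q.1 * g q.2 +
      (∑ q ∈ (Icc 1 N ×ˢ Icc 1 N).filter (fun q => q.2 < q.1), g q.1 * g q.2 +
      ∑ q ∈ (Icc 1 N ×ˢ Icc 1 N).filter (fun q => q.1 = q.2), g q.1 * g q.2) := by
    rw [Finset.sum_filter, Finset.sum_filter, Finset.sum_filter, ← Finset.sum_add_distrib,
      ← Finset.sum_add_distrib]
    refine Finset.sum_congr rfl fun q _ => ?_
    rcases lt_trichotomy q.1 q.2 with h | h | h
    · rw [if_pos h, if_neg (by omega), if_neg (by omega)]; ring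
    · rw [if_neg (by omega), if_neg (by omega), if_pos h]; ring
    · rw [if_neg (by omega), if_pos h, if_neg (by omega)]; ring
  have h3 : ∑ q ∈ (Icc 1 N ×ˢ Icc 1 N).filter (fun q => q.2 < q.1), g q.1 * g q.2 =
      ∑ q ∈ pr2 N, g q.1 * g q.2 := by
    refine Finset.sum_nbij' (fun q => (q.2, q.1)) (fun q => (q.2, q.1)) ?_ ?_ ?_ ?_ ?_
    · rintro ⟨x, y⟩ hq
      simp only [pr2, mem_filter, mem_product, mem_Icc] at hq ⊢
      omega
    · rintro ⟨x, y⟩ hq
      simp only [pr2, mem_filter, mem_product, mem_Icc] at hq ⊢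
      omega
    · rintro ⟨x, y⟩ hq
      simp
    · rintro ⟨x, y⟩ hq
      simp
    · rintro ⟨x, y⟩ hq
      simp [mul_comm]
  have h4 : ∑ q ∈ (Icc 1 N ×ˢ Icc 1 N).filter (fun q => q.1 = q.2), g q.1 * g q.2 =
      ∑ x ∈ Icc 1 N, g x ^ 2 := by
    refine Finset.sum_nbij' (fun q => q.1) (fun x => (x, x)) ?_ ?_ ?_ ?_ ?_
    · rintro ⟨x, y⟩ hq
      simp only [mem_filter, mem_product] at hq ⊢
      exact hq.1.1
    · intro x hx
      simp only [mem_filter, mem_product]
      exact ⟨⟨hx, hx⟩, trivial⟩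
    · rintro ⟨x, y⟩ hq
      simp only [mem_filter, mem_product] at hq
      simp [hq.2]
    · intro x hx
      rfl
    · rintro ⟨x, y⟩ hq
      simp only [mem_filter, mem_product] at hq
      simp [hq.2, sq]
  rw [h3, h4] at h2
  rw [h1, h2]
  unfold pr2
  ring

section fin
variable {m : ℕ} {χ : ℕ → Fin 3}

/-- the signed number of changes at an endpoint -/
def sg (m : ℕ) (χ : ℕ → Fin 3) (i : Fin 6) : ℤ := ∑ x ∈ Icc 1 (67 * m), s m χ i x

/-- the number of changes at an endpoint -/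
def nn (m : ℕ) (χ : ℕ → Fin 3) (i : Fin 6) : ℤ := ∑ x ∈ Icc 1 (67 * m), s m χ i x ^ 2

lemma sg_eq (i : Fin 6) : sg m χ i = ((ER m χ i).card : ℤ) - (EL m χ i).card := by
  unfold sg s r l ER EL
  rw [Finset.sum_sub_distrib, Finset.sum_boole, Finset.sum_boole]

lemma prodA (hm : 1 ≤ m) {i j : Fin 6} (h : e i + e j < 67) :
    ∑ q ∈ prs (67 * m), s m χ i q.1 * s m χ j q.2 = sg m χ i * sg m χ j := by
  unfold sg
  rw [Finset.sum_mul_sum, ← Finset.sum_product', prs, Finset.sum_filter]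
  refine Finset.sum_congr rfl fun q _ => ?_
  by_cases h1 : s m χ i q.1 = 0
  · rw [h1]; simp
  by_cases h2 : s m χ j q.2 = 0
  · rw [h2]; simp
  have b1 := s_ne h1
  have b2 := s_ne h2
  have b3 : (e i + e j) * m = e i * m + e j * m := by ring
  have b4 : (e i + e j) * m ≤ 66 * m := Nat.mul_le_mul_right m (by omega)
  rw [if_pos (by omega)]

lemma prodB (hm : 1 ≤ m) {i j : Fin 6} (h : e i < e j) :
    ∑ q ∈ pr2 (67 * m), s m χ i q.1 * s m χ j q.2 = sg m χ i * sg m χ j := by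
  unfold sg
  rw [Finset.sum_mul_sum, ← Finset.sum_product', pr2, Finset.sum_filter]
  refine Finset.sum_congr rfl fun q _ => ?_
  by_cases h1 : s m χ i q.1 = 0
  · rw [h1]; simp
  by_cases h2 : s m χ j q.2 = 0
  · rw [h2]; simp
  have b1 := s_ne h1
  have b2 := s_ne h2
  have b3 : (e i + 1) * m = e i * m + m := by ring
  have b4 : (e i + 1) * m ≤ e j * m := Nat.mul_le_mul_right m (by omega)
  rw [if_pos (by omega)]

lemma card_dif (hm : 1 ≤ m)
    (hall : ∀ x ∈ dif (67 * m) χ (col m), ∃ i : Fin 6, isR m i x (χ x) ∨ isL m i x (χ x)) :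
    ((dif (67 * m) χ (col m)).card : ℤ) = ∑ i : Fin 6, nn m χ i := by
  unfold nn
  rw [Finset.sum_comm, dif, Finset.card_filter]
  push_cast
  refine Finset.sum_congr rfl fun x hx => ?_
  rcases s_dich (m := m) (χ := χ) x with h1 | ⟨i, hi, hi2⟩
  · rw [Finset.sum_eq_zero (fun i _ => by rw [h1 i]; ring)]
    rw [if_neg]
    intro hd
    obtain ⟨i, hi⟩ := hall x (by rw [dif, mem_filter]; exact ⟨hx, hd⟩)
    have h2 := h1 i
    rcases hi with hR | hL
    · obtain ⟨h0, -, -⟩ := rl hm hR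
      simp [s, r, l, hR, h0] at h2
    · obtain ⟨h0, -, -⟩ := ll hm hL
      simp [s, r, l, hL, h0] at h2
  · rw [Finset.sum_eq_single i (fun k _ hk => by rw [hi2 k hk]; ring)
      (fun h => absurd (mem_univ _) h), if_pos (s_ne_dif hm hi)]
    by_cases hR : isR m i x (χ x)
    · obtain ⟨h0, -, -⟩ := rl hm hR
      simp [s, r, l, hR, h0]
    · by_cases hL : isL m i x (χ x)
      · simp [s, r, l, hR, hL]
      · exact absurd (by simp [s, r, l, hR, hL]) hi

end fin

theorem goalQF : G_QF := by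
  intro m χ hm hall
  set N := 67 * m with hN
  have hA : ∑ q ∈ prs N, ∑ c : Fin 3, Pool.Agent.Helper43.LO.h χ (col m) c q.1
      * Pool.Agent.Helper43.LO.h χ (col m) c q.2 * ind (col m) c (q.1 + q.2)
      = ∑ i : Fin 6, ∑ j : Fin 6, Kb i j * (sg m χ i * sg m χ j) := by
    have h1 : ∀ q ∈ prs N, ∑ c : Fin 3, Pool.Agent.Helper43.LO.h χ (col m) c q.1
      * Pool.Agent.Helper43.LO.h χ (col m) c q.2 * ind (col m) c (q.1 + q.2)
        = ∑ i : Fin 6, ∑ j : Fin 6, Kb i j * (s m χ i q.1 * s m χ j q.2) := by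
      intro q hq
      rw [prs, mem_filter, mem_product] at hq
      exact ptA hm hall hq.1.1 hq.1.2 hq.2
    rw [Finset.sum_congr rfl h1, Finset.sum_comm]
    refine Finset.sum_congr rfl fun i _ => ?_
    rw [Finset.sum_comm]
    refine Finset.sum_congr rfl fun j _ => ?_
    rw [← Finset.mul_sum]
    by_cases h : e i + e j < 67
    · rw [prodA hm h]
    · rw [Kb, if_neg h]; ring
  have hB : 2 * ∑ q ∈ prs N, ∑ c : Fin 3, Pool.Agent.Helper43.LO.h χ (col m) c q.1
      * ind (col m) c q.2 * Pool.Agent.Helper43.LO.h χ (col m) c (q.1 + q.2)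
      = ∑ i : Fin 6, ∑ j : Fin 6, 2 * ((if e i < e j then Kd i j else 0)
          * (sg m χ i * sg m χ j)) + ∑ i : Fin 6, (sg m χ i ^ 2 - nn m χ i) := by
    rw [reidx N (fun x y z => ∑ c : Fin 3, Pool.Agent.Helper43.LO.h χ (col m) c x
      * ind (col m) c y * Pool.Agent.Helper43.LO.h χ (col m) c z)]
    have h1 : ∀ q ∈ pr2 N, ∑ c : Fin 3, Pool.Agent.Helper43.LO.h χ (col m) c q.1
      * ind (col m) c (q.2 - q.1) * Pool.Agent.Helper43.LO.h χ (col m) c q.2
        = ∑ i : Fin 6, ∑ j : Fin 6, Kd i j * (s m χ i q.1 * s m χ j q.2) := by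
      intro q hq
      rw [pr2, mem_filter, mem_product] at hq
      exact ptB hm hall hq.1.1 hq.1.2 hq.2
    rw [Finset.sum_congr rfl h1, Finset.sum_comm, Finset.mul_sum, ← Finset.sum_add_distrib]
    refine Finset.sum_congr rfl fun i _ => ?_
    rw [Finset.sum_comm, Finset.mul_sum]
    have h2 : ∀ j : Fin 6, 2 * ∑ q ∈ pr2 N, Kd i j * (s m χ i q.1 * s m χ j q.2)
        = 2 * ((if e i < e j then Kd i j else 0) * (sg m χ i * sg m χ j))
          + (if i = j then (sg m χ i ^ 2 - nn m χ i) else 0) := by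
      intro j
      rw [← Finset.mul_sum]
      rcases lt_trichotomy (e i) (e j) with h | h | h
      · rw [prodB hm h, if_pos h, if_neg (by rintro rfl; exact lt_irrefl _ h)]; ring
      · have hij := e_inj i j h
        subst hij
        rw [if_neg (lt_irrefl _), if_pos rfl, Kd_self, one_mul, sq_split]
        unfold sg nn
        ring
      · rw [Kd, if_neg (by omega), if_neg (by omega), if_neg (by rintro rfl; exact lt_irrefl _ h)]
        ring
    rw [Finset.sum_congr rfl (fun j _ => h2 j), Finset.sum_add_distrib]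
    simp
  have hC : ∑ q ∈ prs N, ∑ c : Fin 3, ind (col m) c q.1
      * Pool.Agent.Helper43.LO.h χ (col m) c q.2
      * Pool.Agent.Helper43.LO.h χ (col m) c (q.1 + q.2)
      = ∑ q ∈ prs N, ∑ c : Fin 3, Pool.Agent.Helper43.LO.h χ (col m) c q.1
      * ind (col m) c q.2 * Pool.Agent.Helper43.LO.h χ (col m) c (q.1 + q.2) := by
    rw [swp N (fun x y => ∑ c : Fin 3, ind (col m) c x
      * Pool.Agent.Helper43.LO.h χ (col m) c y
      * Pool.Agent.Helper43.LO.h χ (col m) c (x + y))]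
    refine Finset.sum_congr rfl fun q _ => Finset.sum_congr rfl fun c _ => ?_
    rw [add_comm q.2 q.1]
    ring
  have hD : ∑ q ∈ prs N, ∑ c : Fin 3, Pool.Agent.Helper43.LO.h χ (col m) c q.1
      * Pool.Agent.Helper43.LO.h χ (col m) c q.2
      * Pool.Agent.Helper43.LO.h χ (col m) c (q.1 + q.2) = 0 := by
    refine Finset.sum_eq_zero fun q hq => Finset.sum_eq_zero fun c _ => ?_
    rw [prs, mem_filter, mem_product] at hq
    exact ptD hm hall hq.1.1 hq.1.2 hq.2 c
  have hQ : Q2 N χ (col m) = ∑ i : Fin 6, ∑ j : Fin 6, Kb i j * (sg m χ i * sg m χ j)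
      + (∑ i : Fin 6, ∑ j : Fin 6, 2 * ((if e i < e j then Kd i j else 0)
          * (sg m χ i * sg m χ j)) + ∑ i : Fin 6, (sg m χ i ^ 2 - nn m χ i)) := by
    rw [← hA, ← hB, two_mul]
    unfold Q2
    simp only [Finset.sum_add_distrib]
    rw [hC, hD]
    ring
  rw [hQ, card_dif hm hall]
  have hT : ∑ i : Fin 6, ∑ j : Fin 6, (if e j < e i then Kd j i else 0)
          * (sg m χ i * sg m χ j) = ∑ i : Fin 6, ∑ j : Fin 6, (if e i < e j then Kd i j else 0)
          * (sg m χ i * sg m χ j) := by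
    rw [Finset.sum_comm]
    refine Finset.sum_congr rfl fun i _ => Finset.sum_congr rfl fun j _ => ?_
    ring
  have hS : ∑ i : Fin 6, ∑ j : Fin 6, (if i = j then (1 : ℤ) else 0)
          * (sg m χ i * sg m χ j) = ∑ i : Fin 6, sg m χ i ^ 2 := by
    refine Finset.sum_congr rfl fun i _ => ?_
    simp [sq]
  have hK : ∑ i : Fin 6, ∑ j : Fin 6, kap i j * (((ER m χ i).card : ℤ) - (EL m χ i).card)
        * (((ER m χ j).card : ℤ) - (EL m χ j).card)
      = ∑ i : Fin 6, ∑ j : Fin 6, Kb i j * (sg m χ i * sg m χ j)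
        + ∑ i : Fin 6, ∑ j : Fin 6, (if e i < e j then Kd i j else 0) * (sg m χ i * sg m χ j)
        + ∑ i : Fin 6, ∑ j : Fin 6, (if e j < e i then Kd j i else 0) * (sg m χ i * sg m χ j)
        + ∑ i : Fin 6, ∑ j : Fin 6, (if i = j then (1 : ℤ) else 0) * (sg m χ i * sg m χ j) := by
    simp only [← Finset.sum_add_distrib]
    refine Finset.sum_congr rfl fun i _ => Finset.sum_congr rfl fun j _ => ?_
    rw [← sg_eq, ← sg_eq, kap_eq]
    ring
  rw [hK, hT, hS, Finset.sum_sub_distrib]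
  simp only [← Finset.mul_sum]
  ring

end Pool.Agent.Helper82.LO
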